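import Pool.Agent.Y718.CL.Stm

/-!
# Project CL, job SMT: smoothness passes from the algebraic closure to the complex numbers
-/

set_option autoImplicit false

open MvPolynomial Pool.Agent.Y718 Pool.Agent.Y718.SF

namespace Pool.Agent.Y362.CL

theorem smt : Pool.Agent.Y718.CL.S_SMT := by
  intro K _ _ m F hF φ
  let I : Ideal (MvPolynomial (Fin m) K) := Ideal.span (Set.range fun i => pderiv i F)
  have hX : ∀ i : Fin m, ∃ N : ℕ, (X i : MvPolynomial (Fin m) K) ^ N ∈ I := by
    intro i
    have h1 : (X i : MvPolynomial (Fin m) K) ∈ I.radical := by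
      rw [← MvPolynomial.vanishingIdeal_zeroLocus_eq_radical (K := AlgebraicClosure K) I]
      intro y hy
      have h2 : y = 0 := hF y fun j => hy _ (Ideal.subset_span ⟨j, rfl⟩)
      rw [h2]
      simp
    exact h1
  intro y hy
  let ψ : MvPolynomial (Fin m) K →+* ℂ := eval₂Hom φ y
  have hI : I ≤ RingHom.ker ψ := by
    rw [Ideal.span_le]
    rintro _ ⟨i, rfl⟩
    show eval₂ φ y (pderiv i F) = 0
    have h1 := hy i
    rw [pderiv_map, eval_map] at h1
    exact h1
  funext i
  obtain ⟨N, hN⟩ := hX i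
  have h2 : ψ ((X i : MvPolynomial (Fin m) K) ^ N) = 0 := hI hN
  rw [map_pow] at h2
  have h3 : ψ (X i : MvPolynomial (Fin m) K) = y i := by
    show eval₂ φ y (X i) = y i
    rw [eval₂_X]
  rw [h3] at h2
  exact eq_zero_of_pow_eq_zero h2

end Pool.Agent.Y362.CL

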